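import Pool.Agent.Q211.SK.Def

/-!
# Bernstein sets and Stäckel-compactness
-/

namespace Q211.SK

open Set Filter Topology Cardinal

universe u

lemma exists_two_new {X : Type u} {κ : Cardinal.{u}} (hκ : ℵ₀ ≤ κ) (Q S : Set X) (hQ : κ ≤ #Q)
    (hS : #S < κ) : ∃ a ∈ Q, ∃ b ∈ Q, a ∉ S ∧ b ∉ S ∧ a ≠ b := by
  have h1 : (Q \ S).Nontrivial := by
    rw [← Set.not_subsingleton_iff]
    intro hsub
    have h2 : #(Q \ S : Set X) ≤ 1 := by
      rw [Cardinal.le_one_iff_subsingleton]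
      exact hsub.coe_sort
    have h3 : #Q ≤ #(Q \ S : Set X) + #S := by
      have : Q ⊆ (Q \ S) ∪ S := by
        intro x hx
        by_cases h : x ∈ S
        · exact Or.inr h
        · exact Or.inl ⟨hx, h⟩
      exact (mk_le_mk_of_subset this).trans (mk_union_le _ _)
    have h4 : #(Q \ S : Set X) + #S < κ :=
      add_lt_of_lt hκ (h2.trans_lt (one_lt_aleph0.trans_le hκ)) hS
    exact absurd (hQ.trans h3) (not_le.2 h4)
  obtain ⟨a, ha, b, hb, hab⟩ := h1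
  exact ⟨a, ha.1, b, hb.1, ha.2, hb.2, hab⟩

/-- Given at most `κ` sets of size at least `κ`, some set `B` and its complement meet them
all. -/
lemma exists_bernstein {X ι : Type u} {κ : Cardinal.{u}} (hκ : ℵ₀ ≤ κ) (Q : ι → Set X)
    (hι : #ι ≤ κ) (hQ : ∀ i, κ ≤ #(Q i)) :
    ∃ B : Set X, ∀ i, (∃ y ∈ Q i, y ∈ B) ∧ (∃ y ∈ Q i, y ∉ B) := by
  classical
  rcases isEmpty_or_nonempty ι with hem | ⟨⟨i0⟩⟩
  · exact ⟨∅, fun i => (hem.false i).elim⟩
  have : Nonempty X := by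
    have h1 := hQ i0
    have h2 : (Q i0).Nonempty := by
      rw [← Set.nonempty_coe_sort, ← mk_ne_zero_iff]
      exact (lt_of_lt_of_le (aleph0_pos.trans_le hκ) h1).ne'
    exact ⟨h2.some⟩
  obtain ⟨r, wo, hr⟩ := exists_ord_eq ι
  have hseg : ∀ i, #{j // r j i} < κ := by
    intro i
    rw [← Ordinal.card_typein]
    exact (card_typein_lt i hr).trans_le hι
  let f : ι → X × X := wo.wf.fix fun i g =>
    Classical.epsilon fun p : X × X => p.1 ∈ Q i ∧ p.2 ∈ Q i ∧ p.1 ≠ p.2 ∧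
      ∀ j (hj : r j i), p.1 ≠ (g j hj).1 ∧ p.1 ≠ (g j hj).2 ∧ p.2 ≠ (g j hj).1 ∧
        p.2 ≠ (g j hj).2
  have hf : ∀ i, (f i).1 ∈ Q i ∧ (f i).2 ∈ Q i ∧ (f i).1 ≠ (f i).2 ∧
      ∀ j, r j i → (f i).1 ≠ (f j).1 ∧ (f i).1 ≠ (f j).2 ∧ (f i).2 ≠ (f j).1 ∧
        (f i).2 ≠ (f j).2 := by
    intro i
    have hfi : f i = Classical.epsilon fun p : X × X => p.1 ∈ Q i ∧ p.2 ∈ Q i ∧ p.1 ≠ p.2 ∧
        ∀ j (_ : r j i), p.1 ≠ (f j).1 ∧ p.1 ≠ (f j).2 ∧ p.2 ≠ (f j).1 ∧ p.2 ≠ (f j).2 := by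
      exact wo.wf.fix_eq _ i
    rw [hfi]
    apply Classical.epsilon_spec (p := fun p : X × X => p.1 ∈ Q i ∧ p.2 ∈ Q i ∧ p.1 ≠ p.2 ∧
        ∀ j (_ : r j i), p.1 ≠ (f j).1 ∧ p.1 ≠ (f j).2 ∧ p.2 ≠ (f j).1 ∧ p.2 ≠ (f j).2)
    set S : Set X := (range fun j : {j // r j i} => (f j).1) ∪
      (range fun j : {j // r j i} => (f j).2) with hS
    have hSlt : #S < κ := by
      refine (mk_union_le _ _).trans_lt ?_
      exact add_lt_of_lt hκ (mk_range_le.trans_lt (hseg i)) (mk_range_le.trans_lt (hseg i))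
    obtain ⟨a, ha, b, hb, haS, hbS, hab⟩ := exists_two_new hκ (Q i) S (hQ i) hSlt
    refine ⟨(a, b), ha, hb, hab, fun j hj => ⟨?_, ?_, ?_, ?_⟩⟩
    · rintro rfl; exact haS (Or.inl ⟨⟨j, hj⟩, rfl⟩)
    · rintro rfl; exact haS (Or.inr ⟨⟨j, hj⟩, rfl⟩)
    · rintro rfl; exact hbS (Or.inl ⟨⟨j, hj⟩, rfl⟩)
    · rintro rfl; exact hbS (Or.inr ⟨⟨j, hj⟩, rfl⟩)
  refine ⟨range fun i => (f i).1, fun i => ⟨⟨_, (hf i).1, ⟨i, rfl⟩⟩, ⟨_, (hf i).2.1, ?_⟩⟩⟩
  rintro ⟨j, hj⟩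
  have hj : (f j).1 = (f i).2 := hj
  rcases trichotomous_of r i j with h | h | h
  · exact ((hf j).2.2.2 i h).2.1 hj
  · rw [h] at hj; exact (hf j).2.2.1 hj
  · exact ((hf i).2.2.2 j h).2.2.1 hj.symm

/-- A finite nonempty set has a least element. -/
lemma exists_min {X : Type u} {r : X → X → Prop} (hr : IsLin r) {C : Set X} (hC : C.Finite) :
    C.Nonempty → ∃ x ∈ C, ∀ y ∈ C, r x y := by
  induction C, hC using Set.Finite.induction_on with
  | empty => exact fun h => absurd h Set.not_nonempty_empty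
  | @insert a s _ _ ih =>
      intro _
      rcases s.eq_empty_or_nonempty with rfl | hs
      · refine ⟨a, mem_insert _ _, fun y hy => ?_⟩
        rcases hy with rfl | hy
        · exact hr.refl _
        · exact absurd hy (notMem_empty y)
      · obtain ⟨x, hx, hmin⟩ := ih hs
        rcases hr.total a x with h | h
        · refine ⟨a, mem_insert _ _, fun y hy => ?_⟩
          rcases hy with rfl | hy
          · exact hr.refl _
          · exact hr.trans _ _ _ h (hmin y hy)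
        · refine ⟨x, mem_insert_of_mem _ hx, fun y hy => ?_⟩
          rcases hy with rfl | hy
          · exact h
          · exact hmin y hy

lemma IsLin.swap {X : Type u} {r : X → X → Prop} (hr : IsLin r) : IsLin (fun x y => r y x) where
  refl := hr.refl
  trans := fun x y z h1 h2 => hr.trans _ _ _ h2 h1
  antisymm := fun x y h1 h2 => hr.antisymm _ _ h2 h1
  total := fun x y => (hr.total x y).symm

/-- If `B` and its complement meet all infinite closed sets, the space is Stäckel-compact. -/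
lemma stackel_of_split {X : Type u} [TopologicalSpace X] [T2Space X] (B : Set X)
    (hB : ∀ C : Set X, IsClosed C → C.Infinite → (∃ y ∈ C, y ∈ B) ∧ (∃ y ∈ C, y ∉ B)) :
    Stackel X := by
  classical
  refine ⟨inferInstance, ?_⟩
  letI : LinearOrder X := linearOrderOfSTO (WellOrderingRel (α := X))
  have hwf : WellFounded (fun x y : X => x < y) := (WellOrderingRel.isWellOrder (α := X)).wf
  set r : X → X → Prop := fun x y =>
    (x ∈ B ∧ y ∉ B) ∨ (x ∈ B ∧ y ∈ B ∧ x ≤ y) ∨ (x ∉ B ∧ y ∉ B ∧ y ≤ x) with hr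
  have hlin : IsLin r := by
    refine ⟨fun x => ?_, fun x y z h1 h2 => ?_, fun x y h1 h2 => ?_, fun x y => ?_⟩
    · by_cases h : x ∈ B
      · exact Or.inr (Or.inl ⟨h, h, le_rfl⟩)
      · exact Or.inr (Or.inr ⟨h, h, le_rfl⟩)
    · rcases h1 with ⟨a1, a2⟩ | ⟨a1, a2, a3⟩ | ⟨a1, a2, a3⟩
      · rcases h2 with ⟨b1, b2⟩ | ⟨b1, b2, b3⟩ | ⟨b1, b2, b3⟩
        · exact absurd b1 a2
        · exact absurd b1 a2
        · exact Or.inl ⟨a1, b2⟩
      · rcases h2 with ⟨b1, b2⟩ | ⟨b1, b2, b3⟩ | ⟨b1, b2, b3⟩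
        · exact Or.inl ⟨a1, b2⟩
        · exact Or.inr (Or.inl ⟨a1, b2, a3.trans b3⟩)
        · exact absurd a2 b1
      · rcases h2 with ⟨b1, b2⟩ | ⟨b1, b2, b3⟩ | ⟨b1, b2, b3⟩
        · exact absurd b1 a2
        · exact absurd b1 a2
        · exact Or.inr (Or.inr ⟨a1, b2, b3.trans a3⟩)
    · rcases h1 with ⟨a1, a2⟩ | ⟨a1, a2, a3⟩ | ⟨a1, a2, a3⟩
      · rcases h2 with ⟨b1, b2⟩ | ⟨b1, b2, b3⟩ | ⟨b1, b2, b3⟩
        · exact absurd b1 a2
        · exact absurd b1 a2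
        · exact absurd a1 b2
      · rcases h2 with ⟨b1, b2⟩ | ⟨b1, b2, b3⟩ | ⟨b1, b2, b3⟩
        · exact absurd a1 b2
        · exact le_antisymm a3 b3
        · exact absurd a2 b1
      · rcases h2 with ⟨b1, b2⟩ | ⟨b1, b2, b3⟩ | ⟨b1, b2, b3⟩
        · exact absurd b1 a2
        · exact absurd b1 a2
        · exact le_antisymm b3 a3
    · by_cases hx : x ∈ B <;> by_cases hy : y ∈ B
      · rcases le_total x y with h | h
        · exact Or.inl (Or.inr (Or.inl ⟨hx, hy, h⟩))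
        · exact Or.inr (Or.inr (Or.inl ⟨hy, hx, h⟩))
      · exact Or.inl (Or.inl ⟨hx, hy⟩)
      · exact Or.inr (Or.inl ⟨hy, hx⟩)
      · rcases le_total x y with h | h
        · exact Or.inr (Or.inr (Or.inr ⟨hy, hx, h⟩))
        · exact Or.inl (Or.inr (Or.inr ⟨hx, hy, h⟩))
  refine ⟨r, hlin, fun C hC hCne => ?_⟩
  by_cases hfin : C.Finite
  · exact ⟨exists_min hlin hfin hCne, exists_min hlin.swap hfin hCne⟩
  · obtain ⟨⟨a, haC, haB⟩, ⟨b, hbC, hbB⟩⟩ := hB C hC hfin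
    constructor
    · obtain ⟨m, ⟨hm1, hm2⟩, hmin⟩ := hwf.has_min (C ∩ B) ⟨a, haC, haB⟩
      refine ⟨m, hm1, fun y hy => ?_⟩
      by_cases hyB : y ∈ B
      · exact Or.inr (Or.inl ⟨hm2, hyB, not_lt.1 (hmin y ⟨hy, hyB⟩)⟩)
      · exact Or.inl ⟨hm2, hyB⟩
    · obtain ⟨m, ⟨hm1, hm2⟩, hmin⟩ := hwf.has_min (C \ B) ⟨b, hbC, hbB⟩
      refine ⟨m, hm1, fun y hy => ?_⟩
      by_cases hyB : y ∈ B
      · exact Or.inl ⟨hyB, hm2⟩
      · exact Or.inr (Or.inr ⟨hyB, hm2, not_lt.1 (hmin y ⟨hy, hyB⟩)⟩)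

end Q211.SK
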