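import Pool.Agent.Q211.SK.Bern
import Pool.Agent.H148R3.Indep

/-!
# Sequentially compact spaces are continuous images of Stäckel-compact spaces
-/

namespace Q211.SK

open Set Filter Topology Cardinal

universe u

variable (Y : Type u) [TopologicalSpace Y]

/-- The ultrafilters on `Y` which have a countable member and converge. -/
def CU : Set (Ultrafilter Y) :=
  {p | (∃ A ∈ p, A.Countable) ∧ ∃ y : Y, (p : Filter Y) ≤ 𝓝 y}

variable {Y}

/-- The limit. -/
noncomputable def lm (p : CU Y) : Y := p.2.2.choose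

theorem lm_spec (p : CU Y) : ((p : Ultrafilter Y) : Filter Y) ≤ 𝓝 (lm p) := p.2.2.choose_spec

theorem lm_eq [T2Space Y] (p : CU Y) {y : Y} (h : ((p : Ultrafilter Y) : Filter Y) ≤ 𝓝 y) :
    lm p = y :=
  tendsto_nhds_unique' (f := id) inferInstance (lm_spec p) h

theorem lm_surjective [T2Space Y] : Function.Surjective (lm (Y := Y)) := by
  intro y
  refine ⟨⟨pure y, ⟨{y}, Set.mem_singleton y, Set.countable_singleton y⟩, y, ?_⟩, lm_eq _ ?_⟩
  · exact pure_le_nhds y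
  · exact pure_le_nhds y

theorem continuous_lm [T3Space Y] : Continuous (lm (Y := Y)) := by
  rw [continuous_iff_continuousAt]
  intro p
  unfold ContinuousAt
  rw [(closed_nhds_basis (lm p)).tendsto_right_iff]
  rintro V ⟨hV, hVc⟩
  have h1 : V ∈ (p : Ultrafilter Y) := lm_spec p hV
  have h2 : {q : CU Y | V ∈ (q : Ultrafilter Y)} ∈ 𝓝 p :=
    ((ultrafilter_isOpen_basic V).preimage continuous_subtype_val).mem_nhds h1
  filter_upwards [h2] with q hq
  have h3 : lm q ∈ closure V := mem_closure_iff_ultrafilter.2 ⟨q.1, hq, lm_spec q⟩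
  rwa [hVc.closure_eq] at h3

theorem mk_uf_ge : (2 : Cardinal.{0}) ^ (𝔠 : Cardinal.{0}) ≤ #(Ultrafilter ℕ) := by
  have h := mk_le_of_injective Pool.Agent.H148R3.uE_inj
  rwa [mk_set, mk_set, mk_nat, two_power_aleph0] at h

theorem mk_uf_le : #(Ultrafilter ℕ) ≤ (2 : Cardinal.{0}) ^ (𝔠 : Cardinal.{0}) := by
  have h : #(Ultrafilter ℕ) ≤ #(Set (Set ℕ)) := by
    refine mk_le_of_injective (f := fun p : Ultrafilter ℕ => {s | s ∈ p}) ?_
    intro p q hpq
    ext s
    exact Set.ext_iff.1 hpq s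
  rwa [mk_set, mk_set, mk_nat, two_power_aleph0] at h

theorem mk_seq {Z : Type u} (hZ : #Z ≤ 2 ^ (𝔠 : Cardinal.{u})) :
    #(ℕ → Z) ≤ 2 ^ (𝔠 : Cardinal.{u}) := by
  have h1 : #(ℕ → Z) = #Z ^ (ℵ₀ : Cardinal.{u}) := by simp
  rw [h1]
  refine (power_le_power_right hZ).trans ?_
  rw [← power_mul, continuum_mul_aleph0]

theorem mk_CU (hY : #Y ≤ 2 ^ (𝔠 : Cardinal.{u})) : #(CU Y) ≤ 2 ^ (𝔠 : Cardinal.{u}) := by
  rcases isEmpty_or_nonempty Y with he | hne
  · have : IsEmpty (CU Y) := ⟨fun p => he.false (lm p)⟩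
    rw [mk_eq_zero]
    exact zero_le
  have hsurj : ∀ p : CU Y, ∃ z : (ℕ → Y) × Ultrafilter ℕ, Ultrafilter.map z.1 z.2 = p := by
    intro p
    obtain ⟨A, hA, hAc⟩ := p.2.1
    have hAne : A.Nonempty := Ultrafilter.nonempty_of_mem hA
    obtain ⟨a, ha⟩ := hAc.exists_eq_range hAne
    refine ⟨(a, Ultrafilter.map (Function.invFun a) p.1), ?_⟩
    show Ultrafilter.map a (Ultrafilter.map (Function.invFun a) p.1) = p.1
    rw [Ultrafilter.map_map]
    apply Ultrafilter.coe_injective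
    rw [Ultrafilter.coe_map]
    have h1 : (a ∘ Function.invFun a) =ᶠ[(p.1 : Filter Y)] id := by
      filter_upwards [hA] with y hy
      rw [ha] at hy
      exact Function.invFun_eq hy
    rw [map_congr h1, map_id]
  choose z hz using hsurj
  have hinj : Function.Injective z := by
    intro p q h
    apply Subtype.ext
    rw [← hz p, ← hz q, h]
  have h1 := mk_le_of_injective hinj
  refine h1.trans ?_
  rw [mk_prod]
  have h2 : lift.{0, u} #(ℕ → Y) ≤ 2 ^ (𝔠 : Cardinal.{u}) := by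
    rw [lift_id'.{0, u}]
    exact mk_seq hY
  have h3 : lift.{u, 0} #(Ultrafilter ℕ) ≤ 2 ^ (𝔠 : Cardinal.{u}) := by
    have h4 := lift_le.{u}.2 mk_uf_le
    rw [lift_power, lift_continuum] at h4
    simpa using h4
  refine (mul_le_mul' h2 h3).trans ?_
  rw [mul_eq_self]
  exact aleph0_le_continuum.trans (cantor _).le

/-- Separating sets for a sequence of distinct ultrafilters. -/
theorem exists_sep {p : ℕ → Ultrafilter Y} (hp : Function.Injective p) :
    ∃ (k : ℕ → ℕ) (B : ℕ → Set Y), Function.Injective k ∧ (∀ n, B n ∈ p (k n)) ∧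
      Pairwise (fun m n => Disjoint (B m) (B n)) := by
  have hinf : Infinite (range p) := (infinite_range_of_injective hp).to_subtype
  obtain ⟨U, hUi, hUo, hUd⟩ := exists_seq_infinite_isOpen_pairwise_disjoint (range p)
  have h1 : ∀ n, ∃ (k : ℕ) (A : Set Y), A ∈ p k ∧ (⟨p k, k, rfl⟩ : range p) ∈ U n ∧
      ∀ j, A ∈ p j → (⟨p j, j, rfl⟩ : range p) ∈ U n := by
    intro n
    obtain ⟨⟨_, k, rfl⟩, hk⟩ := (hUi n).nonempty
    obtain ⟨O, hO, hOU⟩ := isOpen_induced_iff.1 (hUo n)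
    have hkO : p k ∈ O := by
      have : (⟨p k, k, rfl⟩ : range p) ∈ Subtype.val ⁻¹' O := by rw [hOU]; exact hk
      exact this
    obtain ⟨_, ⟨A, rfl⟩, hA1, hA2⟩ := ultrafilterBasis_is_basis.exists_subset_of_mem_open hkO hO
    refine ⟨k, A, hA1, hk, fun j hj => ?_⟩
    rw [← hOU]
    exact hA2 hj
  choose k A hA hkU hAU using h1
  refine ⟨k, fun n => A n \ ⋃ m ∈ Finset.range n, A m, ?_, fun n => ?_, ?_⟩
  · intro m n hmn
    by_contra hne
    have h2 := hUd hne
    have h3 := hkU m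
    have h4 := hkU n
    rw [← hmn] at h4
    exact Set.disjoint_left.1 h2 h3 h4
  · have h2 : ∀ m, m < n → (A m)ᶜ ∈ p (k n) := by
      intro m hm
      rw [Ultrafilter.compl_mem_iff_notMem]
      intro h3
      exact Set.disjoint_left.1 (hUd hm.ne) (hAU m (k n) h3) (hkU n)
    have h3 : (⋂ m ∈ Finset.range n, (A m)ᶜ) ∈ p (k n) :=
      (Filter.biInter_finset_mem _).2 fun m hm => h2 m (Finset.mem_range.1 hm)
    refine Filter.mem_of_superset (Filter.inter_mem (hA n) h3) ?_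
    rintro y ⟨hy1, hy2⟩
    refine ⟨hy1, fun hy3 => ?_⟩
    obtain ⟨m, hm, hym⟩ := mem_iUnion₂.1 hy3
    exact (mem_iInter₂.1 hy2 m hm) hym
  · have key : ∀ m n, m < n → Disjoint (A m \ ⋃ j ∈ Finset.range m, A j)
        (A n \ ⋃ j ∈ Finset.range n, A j) := by
      intro m n hmn
      rw [Set.disjoint_left]
      rintro y ⟨hy1, -⟩ ⟨-, hy2⟩
      exact hy2 (mem_iUnion₂.2 ⟨m, Finset.mem_range.2 hmn, hy1⟩)
    intro m n hmn
    rcases lt_or_gt_of_ne hmn with h | h
    · exact key m n h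
    · exact (key n m h).symm

/-- Closures of infinite subsets are large. -/
theorem mk_closure_ge [T3Space Y]
    (hseq : ∀ x : ℕ → Y, ∃ a : Y, ∃ φ : ℕ → ℕ, StrictMono φ ∧ Tendsto (x ∘ φ) atTop (𝓝 a))
    {x : ℕ → CU Y} (hx : Function.Injective x) :
    2 ^ (𝔠 : Cardinal.{u}) ≤ #(closure (range x)) := by
  obtain ⟨y, φ, hφ, hlim⟩ := hseq (fun n => lm (x n))
  obtain ⟨k, B, hk, hB, hBd⟩ := exists_sep (p := fun n => (x (φ n) : Ultrafilter Y))
    (Subtype.val_injective.comp (hx.comp hφ.injective))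
  set q : ℕ → CU Y := fun n => x (φ (k n)) with hq
  have hqlim : Tendsto (fun n => lm (q n)) atTop (𝓝 y) :=
    hlim.comp hk.nat_tendsto_atTop
  choose A hA hAc using fun n => (q n).2.1
  -- the limits
  have hmem : ∀ 𝒰 : Ultrafilter ℕ,
      Ultrafilter.bind 𝒰 (fun n => (q n : Ultrafilter Y)) ∈ CU Y := by
    intro 𝒰
    have hbm : ∀ s : Set Y, s ∈ Ultrafilter.bind 𝒰 (fun n => (q n : Ultrafilter Y)) ↔
        {n | s ∈ (q n : Ultrafilter Y)} ∈ 𝒰 := fun s => Filter.mem_bind'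
    refine ⟨⟨⋃ n, A n, ?_, countable_iUnion hAc⟩, ?_⟩
    · rw [hbm]
      refine Filter.mem_of_superset Filter.univ_mem fun n _ => ?_
      exact Filter.mem_of_superset (hA n) (subset_iUnion A n)
    · by_cases hc : (𝒰 : Filter ℕ) ≤ cofinite
      · refine ⟨y, fun V hV => ?_⟩
        show V ∈ Ultrafilter.bind 𝒰 (fun n => (q n : Ultrafilter Y))
        rw [hbm]
        apply hc
        have h1 : ∀ᶠ n in atTop, lm (q n) ∈ interior V :=
          hqlim.eventually (isOpen_interior.mem_nhds (mem_interior_iff_mem_nhds.2 hV))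
        rw [← Nat.cofinite_eq_atTop] at h1
        filter_upwards [h1] with n hn
        exact lm_spec (q n) (mem_interior_iff_mem_nhds.1 hn)
      · obtain ⟨s, hs, hs'⟩ : ∃ s : Set ℕ, s.Finite ∧ s ∈ 𝒰 := by
          by_contra hcon
          push Not at hcon
          apply hc
          intro t ht
          have := hcon _ (mem_cofinite.1 ht)
          rwa [Ultrafilter.compl_notMem_iff] at this
        obtain ⟨n, -, hn⟩ := Ultrafilter.eq_pure_of_finite_mem hs hs'
        refine ⟨lm (q n), fun V hV => ?_⟩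
        show V ∈ Ultrafilter.bind 𝒰 (fun n => (q n : Ultrafilter Y))
        rw [hbm, hn]
        exact lm_spec (q n) hV
  have hbm : ∀ (𝒰 : Ultrafilter ℕ) (s : Set Y),
      s ∈ Ultrafilter.bind 𝒰 (fun n => (q n : Ultrafilter Y)) ↔
        {n | s ∈ (q n : Ultrafilter Y)} ∈ 𝒰 := fun 𝒰 s => Filter.mem_bind'
  have hcl : ∀ 𝒰 : Ultrafilter ℕ, (⟨_, hmem 𝒰⟩ : CU Y) ∈ closure (range x) := by
    intro 𝒰
    rw [mem_closure_iff]
    intro O hO hzO
    obtain ⟨O', hO', rfl⟩ := isOpen_induced_iff.1 hO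
    obtain ⟨_, ⟨A', rfl⟩, hA1, hA2⟩ :=
      ultrafilterBasis_is_basis.exists_subset_of_mem_open hzO hO'
    have h1 : {n | A' ∈ (q n : Ultrafilter Y)} ∈ 𝒰 := (hbm 𝒰 A').1 hA1
    obtain ⟨n, hn⟩ := Ultrafilter.nonempty_of_mem h1
    exact ⟨q n, hA2 hn, φ (k n), rfl⟩
  set F : Ultrafilter ℕ → closure (range x) := fun 𝒰 => ⟨⟨_, hmem 𝒰⟩, hcl 𝒰⟩ with hF
  have hFinj : Function.Injective F := by
    intro 𝒰 𝒱 h
    have h1 : Ultrafilter.bind 𝒰 (fun n => (q n : Ultrafilter Y)) =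
        Ultrafilter.bind 𝒱 (fun n => (q n : Ultrafilter Y)) :=
      congrArg (fun z : closure (range x) => ((z : CU Y) : Ultrafilter Y)) h
    ext M
    have h2 : {n | (⋃ m ∈ M, B m) ∈ (q n : Ultrafilter Y)} = M := by
      ext n
      constructor
      · intro hn
        by_contra hnM
        have h3 : (⋃ m ∈ M, B m) ∩ B n ∈ (q n : Ultrafilter Y) := Filter.inter_mem hn (hB n)
        obtain ⟨z, hz1, hz2⟩ := Ultrafilter.nonempty_of_mem h3
        obtain ⟨m, hm, hzm⟩ := mem_iUnion₂.1 hz1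
        have hmn : m ≠ n := fun h => hnM (h ▸ hm)
        exact Set.disjoint_left.1 (hBd hmn) hzm hz2
      · intro hn
        exact Filter.mem_of_superset (hB n) (subset_biUnion_of_mem (u := B) hn)
    have h3 := hbm 𝒰 (⋃ m ∈ M, B m)
    have h4 := hbm 𝒱 (⋃ m ∈ M, B m)
    rw [h2] at h3 h4
    rw [← h3, ← h4, h1]
  have h5 := lift_mk_le_lift_mk_of_injective hFinj
  have h6 : (2 : Cardinal.{u}) ^ (𝔠 : Cardinal.{u}) ≤ lift.{u, 0} #(Ultrafilter ℕ) := by
    have h4 := lift_le.{u}.2 mk_uf_ge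
    rw [lift_power, lift_continuum] at h4
    simpa using h4
  refine h6.trans (h5.trans ?_)
  rw [lift_id'.{0, u}]

/-- Every sequentially compact regular Hausdorff space of size at most `2 ^ 𝔠` is a continuous
image of a Stäckel-compact space. -/
theorem stackel_CU [T3Space Y]
    (hseq : ∀ x : ℕ → Y, ∃ a : Y, ∃ φ : ℕ → ℕ, StrictMono φ ∧ Tendsto (x ∘ φ) atTop (𝓝 a))
    (hY : #Y ≤ 2 ^ (𝔠 : Cardinal.{u})) : Stackel (CU Y) := by
  have hκ : ℵ₀ ≤ (2 : Cardinal.{u}) ^ (𝔠 : Cardinal.{u}) :=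
    aleph0_le_continuum.trans (cantor _).le
  have hι : #{x : ℕ → CU Y // Function.Injective x} ≤ 2 ^ (𝔠 : Cardinal.{u}) :=
    (mk_subtype_le _).trans (mk_seq (mk_CU hY))
  obtain ⟨B, hB⟩ := exists_bernstein hκ
    (fun x : {x : ℕ → CU Y // Function.Injective x} => closure (range x.1)) hι
    (fun x => mk_closure_ge hseq x.2)
  refine stackel_of_split B fun C hC hCi => ?_
  set j := hCi.natEmbedding with hj
  have hjinj : Function.Injective fun n => (j n : CU Y) :=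
    Subtype.val_injective.comp j.injective
  obtain ⟨⟨a, ha, haB⟩, ⟨b, hb, hbB⟩⟩ := hB ⟨fun n => (j n : CU Y), hjinj⟩
  have hsub : closure (range fun n => (j n : CU Y)) ⊆ C := by
    refine closure_minimal ?_ hC
    rintro _ ⟨n, rfl⟩
    exact (j n).2
  exact ⟨⟨a, hsub ha, haB⟩, ⟨b, hsub hb, hbB⟩⟩

end Q211.SK
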