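import Pool.Agent.Q211.SK.Main
import Pool.Agent.Q211.SK.Image

/-!
# The cardinality of `E`
-/

namespace Q211.SK

open Set Filter Topology Cardinal Ordinal

theorem mk_E : #E ≤ 2 ^ (𝔠 : Cardinal.{1}) := by
  have h1 : #E ≤ #(Iio (ω_ 2 : Ordinal.{0})) := mk_le_mk_of_subset fun x hx => hx.1
  refine h1.trans ?_
  rw [Cardinal.mk_Iio_ordinal]
  have h2 : (ω_ 2 : Ordinal.{0}).card = ℵ_ 2 := by
    rw [← ord_aleph, card_ord]
  rw [h2]
  have h3 : (ℵ_ 2 : Cardinal.{0}) ≤ 2 ^ (𝔠 : Cardinal.{0}) := by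
    have h4 : (2 : Ordinal.{0}) = Order.succ 1 := by
      rw [Order.succ_eq_add_one]; norm_num
    rw [h4, aleph_succ]
    exact Order.succ_le_of_lt (aleph_one_le_continuum.trans_lt (cantor _))
  have h5 := lift_le.{1}.2 h3
  rw [lift_power, lift_continuum] at h5
  simpa using h5

/-- Under the strong Friedman property, a continuous image of a Stäckel-compact space need not be
Stäckel-compact. -/
theorem image_not_stackel (hF : Friedman) : Stackel (CU E) ∧ Continuous (lm (Y := E)) ∧
    Function.Surjective (lm (Y := E)) ∧ ¬ Stackel E :=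
  ⟨stackel_CU seq_E mk_E, continuous_lm, lm_surjective, not_stackel_E hF⟩

end Q211.SK
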