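import Mathlib

/-!
# Stäckel-compactness and the space of ordinals of countable cofinality below `ω₂`
-/

namespace Q211.SK

open Set Filter Topology Ordinal Cardinal Order

/-- `r` is a (reflexive) linear order. -/
structure IsLin {X : Type*} (r : X → X → Prop) : Prop where
  refl : ∀ x, r x x
  trans : ∀ x y z, r x y → r y z → r x z
  antisymm : ∀ x y, r x y → r y x → x = y
  total : ∀ x y, r x y ∨ r y x

/-- Stäckel-compact spaces. -/
def Stackel (X : Type*) [TopologicalSpace X] : Prop :=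
  T2Space X ∧ ∃ r : X → X → Prop, IsLin r ∧ ∀ C : Set X, IsClosed C → C.Nonempty →
    (∃ x ∈ C, ∀ y ∈ C, r x y) ∧ (∃ x ∈ C, ∀ y ∈ C, r y x)

/-- Countable compactness: every infinite subset has a limit point. -/
def CtblyCompact (X : Type*) [TopologicalSpace X] : Prop :=
  ∀ S : Set X, S.Infinite → ∃ x : X, AccPt x (𝓟 S)

/-- Scattered spaces: every nonempty subset has an isolated point. -/
def Scattered (X : Type*) [TopologicalSpace X] : Prop :=
  ∀ S : Set X, S.Nonempty → ∃ x ∈ S, ∃ U : Set X, IsOpen U ∧ U ∩ S = {x}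

/-- `f` is (the increasing enumeration of) a closed copy of `ω₁`. -/
def ClosedCopy (f : Ordinal.{0} → Ordinal.{0}) : Prop :=
  (∀ a b, a < b → b < ω₁ → f a < f b) ∧
    (∀ l, IsSuccLimit l → l < ω₁ → IsLUB (f '' Iio l) (f l))

/-- `K` is closed and unbounded in `ω₂`. -/
def ClubW (K : Set Ordinal.{0}) : Prop :=
  K ⊆ Iio (ω_ 2) ∧ (∀ a < ω_ 2, ∃ b ∈ K, a < b) ∧
    ∀ T ⊆ K, T.Nonempty → ∀ x < ω_ 2, IsLUB T x → x ∈ K

/-- `S` is stationary in `ω₂`. -/
def StatW (S : Set Ordinal.{0}) : Prop := ∀ K, ClubW K → (S ∩ K).Nonempty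

/-- Every stationary subset of `{α < ω₂ : cf α = ω}` contains a closed copy of `ω₁`.
(A consequence of Martin's Maximum.) -/
def Friedman : Prop := ∀ S : Set Ordinal.{0}, (∀ α ∈ S, α < ω_ 2 ∧ α.cof = ℵ₀) → StatW S →
  ∃ f : Ordinal.{0} → Ordinal.{0}, ClosedCopy f ∧ ∀ a < ω₁, f a ∈ S

/-- The ordinals below `ω₂` of cofinality at most `ω`. -/
def E : Set Ordinal.{0} := {α | α < ω_ 2 ∧ α.cof ≤ ℵ₀}

theorem cof_w2 : (ω_ 2 : Ordinal.{0}).cof = ℵ_ 2 := by
  have h : (ℵ_ 2 : Cardinal.{0}).IsRegular := by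
    have h1 : (2 : Ordinal.{0}) = Order.succ 1 := by
      rw [Order.succ_eq_add_one]; norm_num
    rw [h1]
    exact isRegular_aleph_succ 1
  have h2 := h.cof_ord
  rwa [ord_aleph] at h2

theorem aleph0_lt_aleph2 : (ℵ₀ : Cardinal.{0}) < ℵ_ 2 := by
  rw [← aleph_zero, aleph_lt_aleph]
  norm_num

theorem mem_cl (a : Ordinal.{0}) (s : Set Ordinal.{0}) :
    a ∈ closure s ↔ (s ∩ Iic a).Nonempty ∧ sSup (s ∩ Iic a) = a :=
  (mem_closure_tfae a s).out 0 2

theorem closed_iff (C : Set E) : IsClosed C ↔ ∀ x : E, IsSuccLimit x.1 →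
    (∀ y < x.1, ∃ c ∈ C, y < c.1 ∧ c.1 < x.1) → x ∈ C := by
  constructor
  · intro h x hx hy
    have h1 : x ∈ closure C := by
      rw [closure_subtype, mem_cl]
      have hne : ((Subtype.val '' C) ∩ Iic x.1).Nonempty := by
        obtain ⟨c, hc, h1, h2⟩ := hy 0 hx.bot_lt
        exact ⟨c, ⟨c, hc, rfl⟩, h2.le⟩
      refine ⟨hne, le_antisymm (csSup_le hne fun z hz => hz.2) ?_⟩
      by_contra hcon
      obtain ⟨c, hc, h1, h2⟩ := hy _ (not_le.1 hcon)
      refine absurd h1 (not_lt.2 (le_csSup ⟨x.1, fun z hz => hz.2⟩ ⟨⟨c, hc, rfl⟩, h2.le⟩))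
    rwa [h.closure_eq] at h1
  · intro h
    rw [← closure_subset_iff_isClosed]
    intro x hx
    by_contra hxC
    apply hxC
    rw [closure_subtype, mem_cl] at hx
    obtain ⟨hne, hs⟩ := hx
    have key : ∀ y < x.1, ∃ c ∈ C, y < c.1 ∧ c.1 < x.1 := by
      intro y hy
      have h1 : y < sSup ((Subtype.val '' C) ∩ Iic x.1) := by rw [hs]; exact hy
      obtain ⟨_, ⟨⟨c, hc, rfl⟩, hcx⟩, hyc⟩ := exists_lt_of_lt_csSup hne h1
      refine ⟨c, hc, hyc, lt_of_le_of_ne hcx fun he => hxC ?_⟩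
      have : c = x := Subtype.ext he
      rwa [← this]
    refine h x ⟨?_, ?_⟩ key
    · intro hmin
      obtain ⟨_, ⟨c, hc, rfl⟩, hcx⟩ := hne
      have h1 : x.1 ≤ c.1 := hmin hcx
      have : c = x := Subtype.ext (le_antisymm hcx h1)
      exact hxC (by rwa [← this])
    · intro a ha
      obtain ⟨c, -, h1, h2⟩ := key a ha.lt
      exact ha.2 h1 h2

theorem scattered_E : Scattered E := by
  intro S hS
  obtain ⟨x, hx, hmin⟩ := WellFounded.has_min (wellFounded_lt (α := E)) S hS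
  refine ⟨x, hx, {y | y.1 < succ x.1}, ?_, ?_⟩
  · exact isOpen_Iio.preimage continuous_subtype_val
  · ext y
    constructor
    · rintro ⟨h1, h2⟩
      have h3 : y.1 ≤ x.1 := lt_succ_iff.1 h1
      have h4 := hmin y h2
      exact Subtype.ext (le_antisymm h3 (not_lt.1 h4))
    · rintro rfl
      exact ⟨lt_succ (y.1), hx⟩

theorem iSup_mem_E {x : ℕ → Ordinal.{0}} (h : ∀ n, x n ∈ E) : (⨆ n, x n) ∈ E := by
  have hlt : (⨆ n, x n) < ω_ 2 := by
    refine iSup_lt_of_lt_cof ?_ fun n => (h n).1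
    rw [cof_w2, mk_nat]
    exact aleph0_lt_aleph2
  refine ⟨hlt, ?_⟩
  by_cases hat : ∃ n, x n = ⨆ n, x n
  · obtain ⟨n, hn⟩ := hat
    rw [← hn]
    exact (h n).2
  · push Not at hat
    by_contra hcon
    have h1 : ⨆ n, x n < ⨆ n, x n := by
      refine iSup_lt_of_lt_cof ?_ fun n => lt_of_le_of_ne (Ordinal.le_iSup x n) (hat n)
      rw [mk_nat]
      exact not_le.1 hcon
    exact absurd h1 (lt_irrefl _)

theorem seq_E (x : ℕ → E) : ∃ a : E, ∃ φ : ℕ → ℕ, StrictMono φ ∧ Tendsto (x ∘ φ) atTop (𝓝 a) := by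
  obtain ⟨g, hg⟩ := exists_increasing_or_nonincreasing_subseq (· > ·) (fun n => (x n).1)
  rcases hg with hg | hg
  · exfalso
    exact (RelEmbedding.natGT (r := (· < ·)) (fun n => (x (g n)).1)
      (fun n => hg n (n+1) (Nat.lt_succ_self n))).not_wellFounded (wellFounded_lt)
  · have hmono : Monotone fun n => (x (g n)).1 := by
      intro m n hmn
      rcases hmn.eq_or_lt with rfl | hlt
      · exact le_rfl
      · exact not_lt.1 (hg m n hlt)
    have hmem : (⨆ n, (x (g n)).1) ∈ E := iSup_mem_E fun n => (x (g n)).2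
    refine ⟨⟨_, hmem⟩, g, g.strictMono, ?_⟩
    rw [tendsto_subtype_rng]
    exact tendsto_atTop_ciSup hmono Ordinal.bddAbove_of_small

theorem ctbly_of_seq {X : Type*} [TopologicalSpace X] [T1Space X]
    (h : ∀ x : ℕ → X, ∃ a : X, ∃ φ : ℕ → ℕ, StrictMono φ ∧ Tendsto (x ∘ φ) atTop (𝓝 a)) :
    CtblyCompact X := by
  intro S hS
  set j := hS.natEmbedding with hj
  obtain ⟨a, φ, hφ, hlim⟩ := h (fun n => (j n : X))
  refine ⟨a, ?_⟩
  rw [accPt_iff_nhds]
  intro U hU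
  have h1 := hlim.eventually hU
  obtain ⟨N, hN⟩ := eventually_atTop.1 h1
  have hinj : Function.Injective fun n => (j (φ n) : X) :=
    Subtype.val_injective.comp (j.injective.comp hφ.injective)
  by_cases h2 : (j (φ N) : X) = a
  · refine ⟨(j (φ (N+1)) : X), ⟨hN (N+1) (Nat.le_succ N), (j _).2⟩, fun h3 => ?_⟩
    have := hinj (h2.trans h3.symm)
    omega
  · exact ⟨(j (φ N) : X), ⟨hN N le_rfl, (j _).2⟩, h2⟩

theorem ctbly_E : CtblyCompact E := ctbly_of_seq seq_E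

theorem t5_E : T5Space E := inferInstance

end Q211.SK
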