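import Pool.Agent.Q211.SK.Def

/-!
# Under the strong form of Friedman's property, `E` is not Stäckel-compact
-/

namespace Q211.SK

open Set Filter Topology Ordinal Cardinal Order

/-- Closed unbounded subsets of `E`. -/
def Club (C : Set E) : Prop := IsClosed C ∧ ∀ γ < ω_ 2, ∃ c ∈ C, γ < c.1

/-- A bound for fewer than `ℵ₂` many ordinals below `ω₂`. -/
theorem bound {γ : Ordinal.{0}} (hγ : γ < ω_ 2) (g : Iio γ → Ordinal.{0})
    (hg : ∀ i, g i < ω_ 2) : ∃ δ < ω_ 2, ∀ i, g i < δ := by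
  have hcard : Cardinal.lift.{0} #(Iio γ) < (lift.{1} (ω_ 2 : Ordinal.{0})).cof := by
    rw [← lift_cof, cof_w2, Cardinal.lift_id'.{0, 1}, Cardinal.mk_Iio_ordinal,
      Cardinal.lift_lt, ← ord_lt_ord, ord_aleph]
    exact (ord_card_le γ).trans_lt hγ
  refine ⟨⨆ i, g i + 1, lift_iSup_add_one_lt_of_lt_cof hcard hg, fun i => ?_⟩
  exact Ordinal.lt_iSup_add_one _ i

theorem max_lt_w2 {a b : Ordinal.{0}} (ha : a < ω_ 2) (hb : b < ω_ 2) : max a b < ω_ 2 :=
  max_lt ha hb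

/-- The main theorem. -/
theorem not_stackel_E (hF : Friedman) : ¬ Stackel E := by
  classical
  rintro ⟨-, r, hr, hC⟩
  -- the upper part
  set U : Set E := {y | ∃ C, Club C ∧ ∀ x ∈ C, r x y} with hU
  have hUc : ∀ y : E, ∃ C : Set E, y ∈ U → (Club C ∧ ∀ x ∈ C, r x y) := by
    intro y
    by_cases hy : y ∈ U
    · obtain ⟨C, hC⟩ := hy
      exact ⟨C, fun _ => hC⟩
    · exact ⟨∅, fun h => absurd h hy⟩
  choose Cy hCy using hUc
  -- the set on which the order is reversed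
  set Δ : Set E := {x | IsSuccLimit x.1 ∧ ∀ y ∈ U, y.1 < x.1 → x ∈ Cy y} with hΔ
  set S : Set Ordinal.{0} := Subtype.val '' (U ∩ Δ) with hS
  have hS1 : ∀ α ∈ S, α < ω_ 2 ∧ α.cof = ℵ₀ := by
    rintro _ ⟨x, ⟨-, hx, -⟩, rfl⟩
    exact ⟨x.2.1, le_antisymm x.2.2 (aleph0_le_cof.2 hx)⟩
  have hS2 : StatW S := by
    intro K hK
    obtain ⟨hKs, hKu, hKc⟩ := hK
    set C : Set E := {x | x ∈ Δ ∧ x.1 ∈ K} with hCdef
    have hclosed : IsClosed C := by
      rw [closed_iff]
      intro x hx hxy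
      refine ⟨⟨hx, fun y hy hyx => ?_⟩, ?_⟩
      · refine (closed_iff _).1 (hCy y hy).1.1 x hx fun z hz => ?_
        obtain ⟨c, hc, h1, h2⟩ := hxy (max z y.1) (max_lt hz hyx)
        exact ⟨c, hc.1.2 y hy ((le_max_right _ _).trans_lt h1), (le_max_left _ _).trans_lt h1, h2⟩
      · refine hKc (K ∩ Iio x.1) inter_subset_left ?_ x.1 x.2.1 ⟨fun z hz => hz.2.le, ?_⟩
        · obtain ⟨c, hc, h1, h2⟩ := hxy 0 hx.bot_lt
          exact ⟨c.1, hc.2, h2⟩
        · intro z hz
          by_contra hcon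
          obtain ⟨c, hc, h1, h2⟩ := hxy z (not_le.1 hcon)
          exact absurd (hz ⟨hc.2, h2⟩) (not_le.2 h1)
    have hstep : ∀ γ : Ordinal.{0}, ∃ δ : Ordinal.{0}, γ < ω_ 2 → (δ < ω_ 2 ∧ γ < δ ∧
        (∀ y ∈ U, y.1 < γ → ∃ c ∈ Cy y, γ < c.1 ∧ c.1 < δ) ∧ ∃ k ∈ K, γ < k ∧ k < δ) := by
      intro γ
      by_cases hγ : γ < ω_ 2
      · have h1 : ∀ i : Iio γ, ∃ c : Ordinal.{0}, c < ω_ 2 ∧
            ∀ y ∈ U, y.1 = i.1 → ∃ c' ∈ Cy y, c'.1 = c ∧ γ < c := by
          intro i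
          by_cases hi : ∃ y ∈ U, y.1 = i.1
          · obtain ⟨y, hy, hyi⟩ := hi
            obtain ⟨c, hc, hγc⟩ := (hCy y hy).1.2 γ hγ
            refine ⟨c.1, c.2.1, fun y' hy' hyi' => ?_⟩
            have : y' = y := Subtype.ext (hyi'.trans hyi.symm)
            rw [this]
            exact ⟨c, hc, rfl, hγc⟩
          · exact ⟨0, zero_le.trans_lt hγ, fun y hy hyi => absurd ⟨y, hy, hyi⟩ hi⟩
        choose g hg1 hg2 using h1
        obtain ⟨δ, hδ, hgδ⟩ := bound hγ g hg1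
        obtain ⟨k, hk, hγk⟩ := hKu γ hγ
        have hk2 : k < ω_ 2 := hKs hk
        have hsl : IsSuccLimit (ω_ 2 : Ordinal.{0}) := isSuccLimit_omega 2
        refine ⟨max δ (succ k), fun _ => ⟨max_lt hδ (hsl.succ_lt hk2),
          (hγk.trans (lt_succ k)).trans_le (le_max_right _ _), ?_, k, hk, hγk,
          (lt_succ k).trans_le (le_max_right _ _)⟩⟩
        intro y hy hyγ
        obtain ⟨c', hc', h1, h2⟩ := hg2 ⟨y.1, hyγ⟩ y hy rfl
        exact ⟨c', hc', h1 ▸ h2, (h1 ▸ hgδ ⟨y.1, hyγ⟩ : c'.1 < δ).trans_le (le_max_left _ _)⟩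
      · exact ⟨0, fun h => absurd h hγ⟩
    choose F hF' using hstep
    have hclub : Club C := by
      refine ⟨hclosed, fun γ₀ hγ₀ => ?_⟩
      set G : ℕ → Ordinal.{0} := fun n => F^[n] γ₀ with hG
      have hG0 : ∀ n, G n < ω_ 2 := by
        intro n
        induction n with
        | zero => exact hγ₀
        | succ n ih =>
            simp only [hG, Function.iterate_succ_apply'] at ih ⊢
            exact (hF' _ ih).1
      have hGs : ∀ n, G (n+1) = F (G n) := fun n => Function.iterate_succ_apply' F n γ₀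
      have hlt : ∀ n, G n < G (n+1) := fun n => by
        rw [hGs]; exact (hF' _ (hG0 n)).2.1
      have hmono : StrictMono G := strictMono_nat_of_lt_succ hlt
      set x : Ordinal.{0} := ⨆ n, G n with hx
      have hxn : ∀ n, G n < x := fun n => (hlt n).trans_le (Ordinal.le_iSup G (n+1))
      have hxw : x < ω_ 2 := by
        refine iSup_lt_of_lt_cof ?_ hG0
        rw [cof_w2, mk_nat]
        exact aleph0_lt_aleph2
      have hxcof : x.cof ≤ ℵ₀ := by
        by_contra hcon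
        have h1 : ⨆ n, G n < x := by
          refine iSup_lt_of_lt_cof ?_ hxn
          rw [mk_nat]
          exact not_le.1 hcon
        exact absurd h1 (lt_irrefl _)
      have hxy : ∀ y < x, ∃ n, y < G n := by
        intro y hy
        exact (Ordinal.lt_iSup_iff).1 hy
      have hxlim : IsSuccLimit x := by
        refine ⟨fun hmin => ?_, fun a ha => ?_⟩
        · exact absurd (hmin (hxn 0).le) (not_le.2 (hxn 0))
        · obtain ⟨n, hn⟩ := hxy a ha.lt
          exact ha.2 hn (hxn n)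
      refine ⟨⟨x, hxw, hxcof⟩, ⟨⟨hxlim, fun y hy hyx => ?_⟩, ?_⟩, hxn 0⟩
      · refine (closed_iff _).1 (hCy y hy).1.1 _ hxlim fun z hz => ?_
        obtain ⟨n, hn⟩ := hxy (max z y.1) (max_lt hz hyx)
        obtain ⟨c, hc, h1, h2⟩ := (hF' (G n) (hG0 n)).2.2.1 y hy ((le_max_right _ _).trans_lt hn)
        refine ⟨c, hc, ((le_max_left _ _).trans_lt hn).trans h1, ?_⟩
        rw [← hGs] at h2
        exact h2.trans (hxn _)
      · refine hKc (K ∩ Iio x) inter_subset_left ?_ x hxw ⟨fun z hz => hz.2.le, ?_⟩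
        · obtain ⟨k, hk, h1, h2⟩ := (hF' (G 0) (hG0 0)).2.2.2
          rw [← hGs] at h2
          exact ⟨k, hk, h2.trans (hxn _)⟩
        · intro z hz
          by_contra hcon
          obtain ⟨n, hn⟩ := hxy z (not_le.1 hcon)
          obtain ⟨k, hk, h1, h2⟩ := (hF' (G n) (hG0 n)).2.2.2
          rw [← hGs] at h2
          exact absurd (hz ⟨hk, h2.trans (hxn _)⟩) (not_le.2 (hn.trans h1))
    have hCne : C.Nonempty := by
      obtain ⟨c, hc, -⟩ := hclub.2 0 (omega_pos 2)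
      exact ⟨c, hc⟩
    obtain ⟨-, M, hM, hmax⟩ := hC C hclosed hCne
    exact ⟨M.1, ⟨M, ⟨⟨C, hclub, hmax⟩, hM.1⟩, rfl⟩, hM.2⟩
  obtain ⟨f, ⟨hf1, hf2⟩, hfS⟩ := hF S hS1 hS2
  -- the closed copy of `ω₁`
  set D : Set E := {x | ∃ a < ω₁, f a = x.1} with hD
  have hDc : IsClosed D := by
    rw [closed_iff]
    intro x hx hxy
    by_contra hxD
    have hne : ∀ a < ω₁, f a ≠ x.1 := fun a ha h => hxD ⟨a, ha, h⟩
    by_cases hall : ∀ a < ω₁, f a < x.1
    · -- the cofinality of `x` is uncountable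
      set f' : Iio (ω₁ : Ordinal.{0}) → Ordinal.{0} := fun a => f a.1 with hf'
      have hmono : StrictMono f' := fun a b hab => hf1 a.1 b.1 hab b.2
      have hsup : ⨆ a, f' a = x.1 := by
        apply le_antisymm
        · exact ciSup_le' fun a => (hall a.1 a.2).le
        · by_contra hcon
          obtain ⟨c, ⟨a, ha, hac⟩, h1, h2⟩ := hxy _ (not_le.1 hcon)
          refine absurd h1 (not_lt.2 ?_)
          rw [← hac]
          exact le_ciSup (f := f') Ordinal.bddAbove_of_small ⟨a, ha⟩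
      have hcof := cof_iSup_Iio hmono (isSuccLimit_omega 1).isSuccPrelimit
      rw [hsup] at hcof
      have h1 : (ω₁ : Ordinal.{0}).cof = ℵ₁ := by
        have h := (isRegular_aleph_one).cof_ord
        rwa [ord_aleph] at h
      rw [h1] at hcof
      exact absurd x.2.2 (not_le.2 (by rw [hcof]; exact aleph0_lt_aleph_one))
    · push Not at hall
      obtain ⟨l, ⟨hl1, hl2⟩, hlmin⟩ := WellFounded.has_min (wellFounded_lt (α := Ordinal.{0}))
        {a | a < ω₁ ∧ x.1 ≤ f a} (by obtain ⟨a, h1, h2⟩ := hall; exact ⟨a, h1, h2⟩)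
      have hlx : x.1 < f l := lt_of_le_of_ne hl2 (hne l hl1).symm
      have hbelow : ∀ a < l, f a < x.1 := by
        intro a ha
        by_contra hcon
        exact hlmin a ⟨ha.trans hl1, not_lt.1 hcon⟩ ha
      have habove : ∀ a, a < ω₁ → f a < x.1 → a < l := by
        intro a ha h
        by_contra hcon
        rcases (not_lt.1 hcon).eq_or_lt with h1 | h1
        · rw [h1] at hlx; exact absurd h (not_lt.2 hlx.le)
        · exact absurd (h.trans hlx) (not_lt.2 (hf1 l a h1 ha).le)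
      by_cases hlim : IsSuccLimit l
      · have hub : x.1 ∈ upperBounds (f '' Iio l) := by
          rintro _ ⟨a, ha, rfl⟩
          exact (hbelow a ha).le
        exact absurd hlx (not_lt.2 ((hf2 l hlim hl1).2 hub))
      · rcases zero_or_succ_or_isSuccLimit l with h | ⟨b, h⟩ | h
        · obtain ⟨c, ⟨a, ha, hac⟩, h1, h2⟩ := hxy 0 hx.bot_lt
          have := habove a ha (by rw [hac]; exact h2)
          rw [h] at this
          exact absurd this not_lt_zero
        · have hbl : b < l := by rw [← h]; exact lt_succ b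
          obtain ⟨c, ⟨a, ha, hac⟩, h1, h2⟩ := hxy (f b) (hbelow b hbl)
          have h3 := habove a ha (by rw [hac]; exact h2)
          rw [← h, lt_succ_iff] at h3
          rw [← hac] at h1
          rcases h3.eq_or_lt with h4 | h4
          · rw [h4] at h1; exact absurd h1 (lt_irrefl _)
          · exact absurd (h1.trans (hf1 a b h4 (hbl.trans hl1))) (lt_irrefl _)
        · exact hlim h
  have h0 : (0 : Ordinal.{0}) < ω₁ := omega_pos 1
  have hmemD : ∀ a (ha : a < ω₁), ∃ z ∈ D, z.1 = f a ∧ z ∈ U ∩ Δ := by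
    intro a ha
    obtain ⟨z, hz, hza⟩ := hfS a ha
    exact ⟨z, ⟨a, ha, hza.symm⟩, hza, hz⟩
  obtain ⟨z0, hz0, -⟩ := hmemD 0 h0
  obtain ⟨⟨m, ⟨a, ha, ham⟩, hmin⟩, -⟩ := hC D hDc ⟨z0, hz0⟩
  have ha1 : succ a < ω₁ := (isSuccLimit_omega 1).succ_lt ha
  obtain ⟨z1, hz1D, hz1, hz1U, -⟩ := hmemD a ha
  obtain ⟨z2, hz2D, hz2, -, hz2Δ⟩ := hmemD (succ a) ha1
  have hlt := hf1 a (succ a) (lt_succ a) ha1
  have e1 : z1 = m := Subtype.ext (hz1.trans ham)
  have h2 : z2 ∈ Cy z1 := hz2Δ.2 z1 hz1U (by rw [hz1, hz2]; exact hlt)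
  have h3 := (hCy z1 hz1U).2 z2 h2
  have h4 := hmin z2 hz2D
  rw [← e1] at h4
  have h5 := hr.antisymm _ _ h4 h3
  rw [h5] at hz1
  rw [← hz1, ← hz2] at hlt
  exact absurd hlt (lt_irrefl _)

end Q211.SK
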